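import Pool.Agent.Helper48.MrMain

/-! The least multiplicative constant for `mr(G) + mr(complement of G)` is `3/2`. -/

namespace Pool.Agent.Results.MP_2c4812_co.LeastConstant

/-- `A ∈ S(G)`: the real matrix `A` is symmetric and for `i ≠ j` its entry `A i j` is nonzero
exactly when `i` and `j` are adjacent; the diagonal is unrestricted -/
def InS {n : ℕ} (G : SimpleGraph (Fin n)) (A : Matrix (Fin n) (Fin n) ℝ) : Prop :=
  A.IsSymm ∧ ∀ i j, i ≠ j → (A i j ≠ 0 ↔ G.Adj i j)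

/-- the minimum rank of `G`: the least rank of a matrix in `S(G)` -/
noncomputable def mr {n : ℕ} (G : SimpleGraph (Fin n)) : ℕ :=
  sInf {r | ∃ A, InS G A ∧ A.rank = r}

lemma mr_le {n : ℕ} {G : SimpleGraph (Fin n)} {A : Matrix (Fin n) (Fin n) ℝ} (h : InS G A) :
    mr G ≤ A.rank := Nat.sInf_le ⟨A, h, rfl⟩

lemma exists_inS {n : ℕ} (G : SimpleGraph (Fin n)) : ∃ A, InS G A := by
  classical
  refine ⟨G.adjMatrix ℝ, G.isSymm_adjMatrix, ?_⟩
  intro i j _
  simp [SimpleGraph.adjMatrix_apply]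

lemma le_mr {n : ℕ} {G : SimpleGraph (Fin n)} {k : ℕ} (h : ∀ A, InS G A → k ≤ A.rank) :
    k ≤ mr G := by
  obtain ⟨A0, hA0⟩ := exists_inS G
  obtain ⟨A, hA, hr⟩ : mr G ∈ {r | ∃ A, InS G A ∧ A.rank = r} := Nat.sInf_mem ⟨_, A0, hA0, rfl⟩
  rw [← hr]
  exact h A hA

lemma rank_submatrix_le' {m n : ℕ} (A : Matrix (Fin n) (Fin n) ℝ) (r c : Fin m → Fin n) :
    (A.submatrix r c).rank ≤ A.rank := by
  have h : A.submatrix r c =
      (1 : Matrix (Fin n) (Fin n) ℝ).submatrix r id * A *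
        (1 : Matrix (Fin n) (Fin n) ℝ).submatrix id c := by
    ext i j
    simp [Matrix.mul_apply, Matrix.one_apply]
  rw [h]
  exact (Matrix.rank_mul_le_left _ _).trans (Matrix.rank_mul_le_right _ _)

lemma three_le_rank {n : ℕ} {A : Matrix (Fin n) (Fin n) ℝ} (r c : Fin 3 → Fin n)
    (h00 : A (r 0) (c 0) ≠ 0) (h11 : A (r 1) (c 1) ≠ 0) (h22 : A (r 2) (c 2) ≠ 0)
    (h01 : A (r 0) (c 1) = 0) (h02 : A (r 0) (c 2) = 0) (h12 : A (r 1) (c 2) = 0) :
    3 ≤ A.rank := by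
  refine le_trans ?_ (rank_submatrix_le' A r c)
  have hdet : (A.submatrix r c).det ≠ 0 := by
    rw [Matrix.det_fin_three]
    simp only [Matrix.submatrix_apply, h01, h02, h12]
    ring_nf
    exact mul_ne_zero (mul_ne_zero h00 h11) h22
  rw [Matrix.rank_of_isUnit _ ((Matrix.isUnit_iff_isUnit_det _).2 (isUnit_iff_ne_zero.2 hdet))]
  simp

lemma three_le_mr_path : 3 ≤ mr (SimpleGraph.pathGraph 4) := by
  apply le_mr
  intro A hA
  have hz : ∀ i j : Fin 4, i ≠ j → ¬ (SimpleGraph.pathGraph 4).Adj i j → A i j = 0 := by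
    intro i j hij hn
    by_contra h
    exact hn ((hA.2 i j hij).1 h)
  apply three_le_rank (A := A) ![0, 1, 2] ![1, 2, 3]
  · exact (hA.2 0 1 (by decide)).2 (by simp [SimpleGraph.pathGraph_adj])
  · exact (hA.2 1 2 (by decide)).2 (by simp [SimpleGraph.pathGraph_adj])
  · exact (hA.2 2 3 (by decide)).2 (by simp [SimpleGraph.pathGraph_adj])
  · exact hz 0 2 (by decide) (by simp [SimpleGraph.pathGraph_adj])
  · exact hz 0 3 (by decide) (by simp [SimpleGraph.pathGraph_adj])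
  · exact hz 1 3 (by decide) (by simp [SimpleGraph.pathGraph_adj])

lemma three_le_mr_path_compl : 3 ≤ mr (SimpleGraph.pathGraph 4)ᶜ := by
  apply le_mr
  intro A hA
  have hz : ∀ i j : Fin 4, i ≠ j → ¬ (SimpleGraph.pathGraph 4)ᶜ.Adj i j → A i j = 0 := by
    intro i j hij hn
    by_contra h
    exact hn ((hA.2 i j hij).1 h)
  apply three_le_rank (A := A) ![2, 0, 3] ![0, 3, 1]
  · exact (hA.2 2 0 (by decide)).2 (by simp [SimpleGraph.pathGraph_adj])
  · exact (hA.2 0 3 (by decide)).2 (by simp [SimpleGraph.pathGraph_adj])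
  · exact (hA.2 3 1 (by decide)).2 (by simp [SimpleGraph.pathGraph_adj])
  · exact hz 2 3 (by decide) (by simp [SimpleGraph.pathGraph_adj])
  · exact hz 2 1 (by decide) (by simp [SimpleGraph.pathGraph_adj])
  · exact hz 0 1 (by decide) (by simp [SimpleGraph.pathGraph_adj])

lemma psd_bound {n : ℕ} (G : SimpleGraph (Fin n)) :
    ∃ A B : Matrix (Fin n) (Fin n) ℝ, InS G A ∧ InS Gᶜ B ∧ A.PosSemidef ∧ B.PosSemidef ∧
      2 * (A.rank + B.rank) ≤ 3 * n := by
  obtain ⟨d₁, d₂, ⟨A, hA1, hA2, hA3⟩, ⟨B, hB1, hB2, hB3⟩, h⟩ := MrGC.main_ineq G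
  rw [Fintype.card_fin] at h
  refine ⟨A, B, ⟨?_, ?_⟩, ⟨?_, ?_⟩, hA1, hB1, by omega⟩
  · have := hA1.isHermitian
    rwa [Matrix.IsHermitian, Matrix.conjTranspose_eq_transpose_of_trivial] at this
  · intro i j hij
    have h1 := hA2 i j hij
    rw [SimpleGraph.compl_adj] at h1
    tauto
  · have := hB1.isHermitian
    rwa [Matrix.IsHermitian, Matrix.conjTranspose_eq_transpose_of_trivial] at this
  · intro i j hij
    have h1 := hB2 i j hij
    rw [SimpleGraph.compl_adj]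
    tauto

/-- The least real `d` such that `mr(G) + mr(complement of G) ≤ d |G|` for all graphs `G` is
exactly `3/2`; the upper bound holds even with positive semidefinite matrices. -/
theorem result :
    (∀ (n : ℕ) (G : SimpleGraph (Fin n)), ∃ A B : Matrix (Fin n) (Fin n) ℝ,
      InS G A ∧ InS Gᶜ B ∧ A.PosSemidef ∧ B.PosSemidef ∧
        (A.rank : ℝ) + B.rank ≤ 3 / 2 * n) ∧
    IsLeast {d : ℝ | ∀ (n : ℕ) (G : SimpleGraph (Fin n)), (mr G : ℝ) + mr Gᶜ ≤ d * n} (3 / 2) := by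
  have h1 : ∀ (n : ℕ) (G : SimpleGraph (Fin n)), ∃ A B : Matrix (Fin n) (Fin n) ℝ,
      InS G A ∧ InS Gᶜ B ∧ A.PosSemidef ∧ B.PosSemidef ∧
        (A.rank : ℝ) + B.rank ≤ 3 / 2 * n := by
    intro n G
    obtain ⟨A, B, hA, hB, hA', hB', h⟩ := psd_bound G
    refine ⟨A, B, hA, hB, hA', hB', ?_⟩
    have : (2 : ℝ) * (A.rank + B.rank) ≤ 3 * n := by exact_mod_cast h
    linarith
  refine ⟨h1, ?_, ?_⟩
  · intro n G
    obtain ⟨A, B, hA, hB, -, -, h⟩ := h1 n G
    have h2 : (mr G : ℝ) ≤ A.rank := by exact_mod_cast mr_le hA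
    have h3 : (mr Gᶜ : ℝ) ≤ B.rank := by exact_mod_cast mr_le hB
    linarith
  · intro d hd
    have h2 := hd 4 (SimpleGraph.pathGraph 4)
    have h3 : (3 : ℝ) ≤ mr (SimpleGraph.pathGraph 4) := by exact_mod_cast three_le_mr_path
    have h4 : (3 : ℝ) ≤ mr (SimpleGraph.pathGraph 4)ᶜ := by exact_mod_cast three_le_mr_path_compl
    push_cast at h2
    linarith

end Pool.Agent.Results.MP_2c4812_co.LeastConstant
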