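import Pool.Agent.GCP.Main

/-!
# Minimum rank of a graph plus that of its complement: graphs close to a graphon

For every `ε > 0` there is `τ > 0` such that for every graphon `W` for which the set where `W` is `0` or `1` has measure
at most `τ`, all large graphs `G` sufficiently close to `W` in the cut distance satisfy `mr(G) + mr(Gᶜ) ≤ (1 + ε) n`, with
positive semidefinite matrices.
-/

open Finset MeasureTheory

namespace Pool.Agent.Results.MP_2c4812_co.NearGraphon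

/-- `A ∈ S(G)`: the real matrix `A` is symmetric and for `i ≠ j` its entry `A i j` is nonzero
exactly when `i` and `j` are adjacent; the diagonal is unrestricted -/
def InS {n : ℕ} (G : SimpleGraph (Fin n)) (A : Matrix (Fin n) (Fin n) ℝ) : Prop :=
  A.IsSymm ∧ ∀ i j, i ≠ j → (A i j ≠ 0 ↔ G.Adj i j)

/-- the minimum rank of `G`: the least rank of a matrix in `S(G)` -/
noncomputable def mr {n : ℕ} (G : SimpleGraph (Fin n)) : ℕ :=
  sInf {r | ∃ A, InS G A ∧ A.rank = r}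

/-- the number of pairs `(x, y) ∈ X × Y` with `x` adjacent to `y` -/
noncomputable def edges {n : ℕ} (G : SimpleGraph (Fin n)) (X Y : Finset (Fin n)) : ℕ :=
  by classical exact ((X ×ˢ Y).filter (fun p => G.Adj p.1 p.2)).card

/-- the union of the intervals `[v / n, (v + 1) / n)`, `v ∈ X` -/
def cell {n : ℕ} (X : Finset (Fin n)) : Set ℝ :=
  {x | ∃ v ∈ X, ((v : ℕ) : ℝ) / n ≤ x ∧ x < (((v : ℕ) : ℝ) + 1) / n}

/-- the unit square with the Lebesgue measure -/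
noncomputable def square : Measure (ℝ × ℝ) := volume.restrict (Set.Icc (0 : ℝ) 1 ×ˢ Set.Icc (0 : ℝ) 1)

/-- after a relabelling `σ` of the vertices the graph `G` has cut distance at most `δ` from `W`: the numbers of edges
between any two sets of vertices agree up to `δ n ^ 2` -/
def Near {n : ℕ} (W : ℝ × ℝ → ℝ) (δ : ℝ) (G : SimpleGraph (Fin n)) : Prop :=
  ∃ σ : Equiv.Perm (Fin n), ∀ X Y : Finset (Fin n),
    |(edges G X Y : ℝ) - n ^ 2 * ∫ p in cell (X.map σ.toEmbedding) ×ˢ cell (Y.map σ.toEmbedding), W p| ≤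
      δ * n ^ 2

lemma mr_le {n : ℕ} {G : SimpleGraph (Fin n)} {A : Matrix (Fin n) (Fin n) ℝ} (h : InS G A) :
    mr G ≤ A.rank := Nat.sInf_le ⟨A, h, rfl⟩

lemma exists_of_pr {n d : ℕ} {G : SimpleGraph (Fin n)} (h : MrGC.PR Gᶜ d) :
    ∃ A : Matrix (Fin n) (Fin n) ℝ, InS G A ∧ A.PosSemidef ∧ A.rank ≤ d := by
  obtain ⟨A, hA1, hA2, hA3⟩ := h
  refine ⟨A, ⟨?_, ?_⟩, hA1, hA3⟩
  · have := hA1.isHermitian
    rwa [Matrix.IsHermitian, Matrix.conjTranspose_eq_transpose_of_trivial] at this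
  · intro i j hij
    have h1 := hA2 i j hij
    rw [SimpleGraph.compl_adj] at h1
    tauto

/-- For every `ε > 0` there is `τ > 0` such that for every measurable `W` with values in `[0, 1]` on the unit square for
which the set where `W` is `0` or `1` has measure at most `τ`, all large graphs `G` close to `W` admit positive
semidefinite matrices `A ∈ S(G)` and `B ∈ S(Gᶜ)` with `rank A + rank B ≤ (1 + ε) n`; in particular
`mr(G) + mr(Gᶜ) ≤ (1 + ε) n`. -/
theorem result (ε : ℝ) (hε : 0 < ε) : ∃ τ : ℝ, 0 < τ ∧ ∀ W : ℝ × ℝ → ℝ, Measurable W →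
    (∀ᵐ p ∂square, 0 ≤ W p ∧ W p ≤ 1) → square.real {p | W p ≤ 0 ∨ 1 ≤ W p} ≤ τ →
    ∃ δ : ℝ, 0 < δ ∧ ∃ n0 : ℕ, ∀ n ≥ n0, ∀ G : SimpleGraph (Fin n), Near W δ G →
      (∃ A B : Matrix (Fin n) (Fin n) ℝ, InS G A ∧ InS Gᶜ B ∧ A.PosSemidef ∧ B.PosSemidef ∧
        (A.rank : ℝ) + B.rank ≤ (1 + ε) * n) ∧
      (mr G : ℝ) + mr Gᶜ ≤ (1 + ε) * n := by
  obtain ⟨τ, hτ, h⟩ := GCP.final_grph ε hε
  refine ⟨τ, hτ, fun W hW h0 hz => ?_⟩
  obtain ⟨δ, hδ, n0, h1⟩ := h W hW h0 hz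
  refine ⟨δ, hδ, n0, fun n hn G hG => ?_⟩
  have hR : GCP.Near W δ G := hG
  obtain ⟨d, d', hd, hd', hsum⟩ := h1 n hn G hR
  obtain ⟨A, hA1, hA2, hA3⟩ := exists_of_pr hd
  obtain ⟨B, hB1, hB2, hB3⟩ := exists_of_pr (G := Gᶜ) (by rwa [compl_compl])
  have hA4 : (A.rank : ℝ) ≤ d := by exact_mod_cast hA3
  have hB4 : (B.rank : ℝ) ≤ d' := by exact_mod_cast hB3
  have hA5 : (mr G : ℝ) ≤ A.rank := by exact_mod_cast mr_le hA1
  have hB5 : (mr Gᶜ : ℝ) ≤ B.rank := by exact_mod_cast mr_le hB1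
  exact ⟨⟨A, B, hA1, hB1, hA2, hB2, by linarith⟩, by linarith⟩

end Pool.Agent.Results.MP_2c4812_co.NearGraphon
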