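import Pool.Agent.GCU.Main
import Pool.Agent.GCP.Rect

/-!
# Minimum rank of a graph plus that of its complement: graphs without homogeneous pairs

For every function `γ`, positive on `(0, ∞)`, there are `c, σ0 > 0` such that for all large `n` every graph `G` on `n`
vertices in which for all `σ ≥ σ0` any two disjoint sets of at least `σ n` vertices have edge density in
`[γ σ, 1 - γ σ]` satisfies `mr(G) + mr(Gᶜ) ≤ (1 - c) n`, with positive semidefinite matrices.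
-/

open Finset

namespace Pool.Agent.Results.MP_2c4812_co.NoHomogeneousPairs

/-- `A ∈ S(G)`: the real matrix `A` is symmetric and for `i ≠ j` its entry `A i j` is nonzero
exactly when `i` and `j` are adjacent; the diagonal is unrestricted -/
def InS {n : ℕ} (G : SimpleGraph (Fin n)) (A : Matrix (Fin n) (Fin n) ℝ) : Prop :=
  A.IsSymm ∧ ∀ i j, i ≠ j → (A i j ≠ 0 ↔ G.Adj i j)

/-- the minimum rank of `G`: the least rank of a matrix in `S(G)` -/
noncomputable def mr {n : ℕ} (G : SimpleGraph (Fin n)) : ℕ :=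
  sInf {r | ∃ A, InS G A ∧ A.rank = r}

/-- the number of pairs `(x, y) ∈ X × Y` with `x` adjacent to `y` -/
noncomputable def edges {n : ℕ} (G : SimpleGraph (Fin n)) (X Y : Finset (Fin n)) : ℕ :=
  by classical exact ((X ×ˢ Y).filter (fun p => G.Adj p.1 p.2)).card

/-- no homogeneous pairs: for every `σ ≥ σ0` any two disjoint sets of at least `σ n` vertices have edge density in
`[γ σ, 1 - γ σ]` -/
def NoHomPairs {n : ℕ} (γ : ℝ → ℝ) (σ0 : ℝ) (G : SimpleGraph (Fin n)) : Prop :=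
  ∀ σ, σ0 ≤ σ → ∀ X Y : Finset (Fin n), Disjoint X Y → σ * n ≤ X.card → σ * n ≤ Y.card →
    γ σ * (X.card * Y.card) ≤ edges G X Y ∧ (edges G X Y : ℝ) ≤ (1 - γ σ) * (X.card * Y.card)

lemma mr_le {n : ℕ} {G : SimpleGraph (Fin n)} {A : Matrix (Fin n) (Fin n) ℝ} (h : InS G A) :
    mr G ≤ A.rank := Nat.sInf_le ⟨A, h, rfl⟩

lemma exists_of_pr {n d : ℕ} {G : SimpleGraph (Fin n)} (h : MrGC.PR Gᶜ d) :
    ∃ A : Matrix (Fin n) (Fin n) ℝ, InS G A ∧ A.PosSemidef ∧ A.rank ≤ d := by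
  obtain ⟨A, hA1, hA2, hA3⟩ := h
  refine ⟨A, ⟨?_, ?_⟩, hA1, hA3⟩
  · have := hA1.isHermitian
    rwa [Matrix.IsHermitian, Matrix.conjTranspose_eq_transpose_of_trivial] at this
  · intro i j hij
    have h1 := hA2 i j hij
    rw [SimpleGraph.compl_adj] at h1
    tauto

/-- For every `γ : ℝ → ℝ` which is positive on `(0, ∞)` there are `c > 0`, `σ0 > 0` and `n0` such that for every graph
`G` on `n ≥ n0` vertices in which for all `σ ≥ σ0` any two disjoint sets of at least `σ n` vertices have edge density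
in `[γ σ, 1 - γ σ]` there are positive semidefinite matrices `A ∈ S(G)` and `B ∈ S(Gᶜ)` with
`rank A + rank B ≤ (1 - c) n`; in particular `mr(G) + mr(Gᶜ) ≤ (1 - c) n`. -/
theorem result (γ : ℝ → ℝ) (hγ : ∀ σ, 0 < σ → 0 < γ σ) : ∃ c σ0 : ℝ, 0 < c ∧ 0 < σ0 ∧ ∃ n0 : ℕ,
    ∀ n ≥ n0, ∀ G : SimpleGraph (Fin n), NoHomPairs γ σ0 G →
      (∃ A B : Matrix (Fin n) (Fin n) ℝ, InS G A ∧ InS Gᶜ B ∧ A.PosSemidef ∧ B.PosSemidef ∧
        (A.rank : ℝ) + B.rank ≤ (1 - c) * n) ∧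
      (mr G : ℝ) + mr Gᶜ ≤ (1 - c) * n := by
  obtain ⟨c, σ0, hc, hσ0, n0, h⟩ := GCU.final γ hγ
  refine ⟨c, σ0, hc, hσ0, n0, fun n hn G hG => ?_⟩
  have hN : GCR.NoHole G γ σ0 := by
    intro σ hσ X Y hXY hX hY
    exact (hG σ hσ X Y hXY hX hY).1
  have hN' : GCR.NoHole Gᶜ γ σ0 := by
    intro σ hσ X Y hXY hX hY
    have h1 := (hG σ hσ X Y hXY hX hY).2
    have h2 : edges G X Y = GCP.edg G X Y := rfl
    have h3 : (GCP.edg Gᶜ X Y : ℝ) = X.card * Y.card - GCP.edg G X Y := GCP.edg_compl G hXY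
    rw [h2] at h1
    linarith
  obtain ⟨d, d', hd, hd', hsum⟩ := h n hn G hN hN'
  obtain ⟨A, hA1, hA2, hA3⟩ := exists_of_pr hd
  obtain ⟨B, hB1, hB2, hB3⟩ := exists_of_pr (G := Gᶜ) (by rwa [compl_compl])
  have hA4 : (A.rank : ℝ) ≤ d := by exact_mod_cast hA3
  have hB4 : (B.rank : ℝ) ≤ d' := by exact_mod_cast hB3
  have hA5 : (mr G : ℝ) ≤ A.rank := by exact_mod_cast mr_le hA1
  have hB5 : (mr Gᶜ : ℝ) ≤ B.rank := by exact_mod_cast mr_le hB1
  exact ⟨⟨A, B, hA1, hB1, hA2, hB2, by linarith⟩, by linarith⟩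

end Pool.Agent.Results.MP_2c4812_co.NoHomogeneousPairs
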