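import Pool.Agent.GCB.Main

/-!
# Minimum rank of almost all graphs: at most one third of the number of vertices

For every `ε > 0` the proportion of the graphs `G` on `n` labelled vertices for which there are positive semidefinite
`A ∈ S(G)`, `B ∈ S(Gᶜ)` of rank at most `(1/3 + ε) n` each (so that `mr(G) + mr(Gᶜ) ≤ (2/3 + 2 ε) n`) tends to `1`.
-/

open Filter Topology

namespace Pool.Agent.Results.MP_2c4812_co.OneThird

/-- `A ∈ S(G)`: the real matrix `A` is symmetric and for `i ≠ j` its entry `A i j` is nonzero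
exactly when `i` and `j` are adjacent; the diagonal is unrestricted -/
def InS {n : ℕ} (G : SimpleGraph (Fin n)) (A : Matrix (Fin n) (Fin n) ℝ) : Prop :=
  A.IsSymm ∧ ∀ i j, i ≠ j → (A i j ≠ 0 ↔ G.Adj i j)

/-- the minimum rank of `G`: the least rank of a matrix in `S(G)` -/
noncomputable def mr {n : ℕ} (G : SimpleGraph (Fin n)) : ℕ :=
  sInf {r | ∃ A, InS G A ∧ A.rank = r}

lemma mr_le {n : ℕ} {G : SimpleGraph (Fin n)} {A : Matrix (Fin n) (Fin n) ℝ} (h : InS G A) :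
    mr G ≤ A.rank := Nat.sInf_le ⟨A, h, rfl⟩

/-- `G` is good: there are positive semidefinite `A ∈ S(G)` and `B ∈ S(Gᶜ)` of rank at most `(1/3 + ε) n` each -/
def Good {n : ℕ} (ε : ℝ) (G : SimpleGraph (Fin n)) : Prop :=
  ∃ A B : Matrix (Fin n) (Fin n) ℝ, InS G A ∧ InS Gᶜ B ∧ A.PosSemidef ∧ B.PosSemidef ∧
    (A.rank : ℝ) ≤ (1 / 3 + ε) * n ∧ (B.rank : ℝ) ≤ (1 / 3 + ε) * n

lemma exists_of_pr {n : ℕ} {ε : ℝ} {G : SimpleGraph (Fin n)}
    (h : ∃ d, MrGC.PR Gᶜ d ∧ (d : ℝ) ≤ (1 / 3 + ε) * n) :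
    ∃ A : Matrix (Fin n) (Fin n) ℝ, InS G A ∧ A.PosSemidef ∧ (A.rank : ℝ) ≤ (1 / 3 + ε) * n := by
  obtain ⟨d, ⟨A, hA1, hA2, hA3⟩, hd⟩ := h
  refine ⟨A, ⟨?_, ?_⟩, hA1, ?_⟩
  · have := hA1.isHermitian
    rwa [Matrix.IsHermitian, Matrix.conjTranspose_eq_transpose_of_trivial] at this
  · intro i j hij
    have h1 := hA2 i j hij
    rw [SimpleGraph.compl_adj] at h1
    tauto
  · have h1 : (A.rank : ℝ) ≤ d := by exact_mod_cast hA3
    linarith

lemma good_of {n : ℕ} {ε : ℝ} {G : SimpleGraph (Fin n)}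
    (h1 : ∃ d, MrGC.PR Gᶜ d ∧ (d : ℝ) ≤ (1 / 3 + ε) * n)
    (h2 : ∃ d, MrGC.PR G d ∧ (d : ℝ) ≤ (1 / 3 + ε) * n) : Good ε G := by
  obtain ⟨A, hA1, hA2, hA3⟩ := exists_of_pr h1
  obtain ⟨B, hB1, hB2, hB3⟩ := exists_of_pr (G := Gᶜ) (by rwa [compl_compl])
  exact ⟨A, B, hA1, hB1, hA2, hB2, hA3, hB3⟩

open Classical in
/-- the number of graphs `G` with property `P` divided by the number of all graphs on `Fin n` -/
noncomputable def prop {n : ℕ} (P : SimpleGraph (Fin n) → Prop) : ℝ :=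
  (Fintype.card {G : SimpleGraph (Fin n) // P G} : ℝ) / (Fintype.card (SimpleGraph (Fin n)) : ℝ)

lemma prop_compl {n : ℕ} (P : SimpleGraph (Fin n) → Prop) : prop (fun G => P Gᶜ) = prop P := by
  classical
  unfold prop
  congr 2
  refine Fintype.card_congr ⟨fun G => ⟨G.1ᶜ, G.2⟩, fun G => ⟨G.1ᶜ, by show P G.1ᶜᶜ; rw [compl_compl]; exact G.2⟩, ?_, ?_⟩
  · intro G; simp
  · intro G; simp

lemma prop_and {n : ℕ} (P Q : SimpleGraph (Fin n) → Prop) :
    prop P + prop Q - 1 ≤ prop (fun G => P G ∧ Q G) := by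
  classical
  unfold prop
  have h0 : (0 : ℝ) < Fintype.card (SimpleGraph (Fin n)) := by
    exact_mod_cast Fintype.card_pos
  have h1 : Fintype.card {G : SimpleGraph (Fin n) // P G} + Fintype.card {G : SimpleGraph (Fin n) // Q G} ≤
      Fintype.card (SimpleGraph (Fin n)) + Fintype.card {G : SimpleGraph (Fin n) // P G ∧ Q G} := by
    simp only [Fintype.card_subtype]
    rw [Finset.filter_and, ← Finset.card_union_add_card_inter]
    gcongr
    exact Finset.card_le_univ _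
  have h2 : (Fintype.card {G : SimpleGraph (Fin n) // P G} : ℝ) +
      Fintype.card {G : SimpleGraph (Fin n) // Q G} ≤
      Fintype.card (SimpleGraph (Fin n)) + Fintype.card {G : SimpleGraph (Fin n) // P G ∧ Q G} := by
    exact_mod_cast h1
  rw [← add_div, div_sub_one h0.ne', div_le_div_iff_of_pos_right h0]
  simp only [← Nat.card_eq_fintype_card] at h2 ⊢
  linarith

lemma prop_mono {n : ℕ} {P Q : SimpleGraph (Fin n) → Prop} (h : ∀ G, P G → Q G) : prop P ≤ prop Q := by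
  classical
  unfold prop
  gcongr
  exact Fintype.card_subtype_mono _ _ h

lemma prop_le_one {n : ℕ} (P : SimpleGraph (Fin n) → Prop) : prop P ≤ 1 := by
  classical
  unfold prop
  refine div_le_one_of_le₀ ?_ (by positivity)
  exact_mod_cast Fintype.card_subtype_le _

/-- For every `ε > 0`, for almost all graphs `G` on `n` labelled vertices there are positive semidefinite matrices in
`S(G)` and `S(Gᶜ)` of rank at most `(1/3 + ε) n` each; in particular `mr(G) ≤ (1/3 + ε) n` and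
`mr(G) + mr(Gᶜ) ≤ (2/3 + ε) n ≤ n` for almost all graphs. -/
theorem result (ε : ℝ) (hε : 0 < ε) :
    Tendsto (fun n : ℕ => prop (fun G : SimpleGraph (Fin n) => Good ε G)) atTop (𝓝 1) ∧
    Tendsto (fun n : ℕ => prop (fun G : SimpleGraph (Fin n) => (mr G : ℝ) + mr Gᶜ ≤ (2 / 3 + ε) * n))
      atTop (𝓝 1) := by
  have key : ∀ ε : ℝ, 0 < ε → Tendsto (fun n : ℕ => prop (fun G : SimpleGraph (Fin n) => Good ε G)) atTop (𝓝 1) := by
    intro ε hε
    have h0 := GCB.final ε hε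
    have h1 : Tendsto (fun n : ℕ => 2 * prop (fun G : SimpleGraph (Fin n) =>
        ∃ d, MrGC.PR G d ∧ (d : ℝ) ≤ (1 / 3 + ε) * n) - 1) atTop (𝓝 1) := by
      have h2 := (h0.const_mul 2).sub_const 1
      norm_num at h2
      exact h2
    have h3 : ∀ n : ℕ, 2 * prop (fun G : SimpleGraph (Fin n) =>
        ∃ d, MrGC.PR G d ∧ (d : ℝ) ≤ (1 / 3 + ε) * n) - 1 ≤ prop (fun G : SimpleGraph (Fin n) => Good ε G) := by
      intro n
      have h4 := prop_and (fun G : SimpleGraph (Fin n) => ∃ d, MrGC.PR Gᶜ d ∧ (d : ℝ) ≤ (1 / 3 + ε) * n)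
        (fun G : SimpleGraph (Fin n) => ∃ d, MrGC.PR G d ∧ (d : ℝ) ≤ (1 / 3 + ε) * n)
      rw [prop_compl (fun G : SimpleGraph (Fin n) => ∃ d, MrGC.PR G d ∧ (d : ℝ) ≤ (1 / 3 + ε) * n)] at h4
      have h5 := prop_mono (P := fun G : SimpleGraph (Fin n) =>
        (∃ d, MrGC.PR Gᶜ d ∧ (d : ℝ) ≤ (1 / 3 + ε) * n) ∧ ∃ d, MrGC.PR G d ∧ (d : ℝ) ≤ (1 / 3 + ε) * n)
        (Q := fun G => Good ε G) (fun G h => good_of h.1 h.2)
      linarith
    exact tendsto_of_tendsto_of_tendsto_of_le_of_le h1 tendsto_const_nhds h3 (fun n => prop_le_one _)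
  refine ⟨key ε hε, ?_⟩
  have h6 : ∀ n : ℕ, prop (fun G : SimpleGraph (Fin n) => Good (ε / 2) G) ≤
      prop (fun G : SimpleGraph (Fin n) => (mr G : ℝ) + mr Gᶜ ≤ (2 / 3 + ε) * n) := by
    intro n
    refine prop_mono (fun G hG => ?_)
    obtain ⟨A, B, hA, hB, -, -, hA', hB'⟩ := hG
    have h7 : (mr G : ℝ) ≤ A.rank := by exact_mod_cast mr_le hA
    have h8 : (mr Gᶜ : ℝ) ≤ B.rank := by exact_mod_cast mr_le hB
    nlinarith
  exact tendsto_of_tendsto_of_tendsto_of_le_of_le (key (ε / 2) (by positivity)) tendsto_const_nhds h6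
    (fun n => prop_le_one _)

end Pool.Agent.Results.MP_2c4812_co.OneThird
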